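import Pool.Agent.Helper29.CQ.Main

/-!
# Cyclic covers of the plane branched along a quartic curve and the line at infinity
-/

set_option autoImplicit false

namespace Pool.Agent.Results.MP_e93a6a_ag.CyclicQuartics

open Polynomial Pool.Agent.Helper29.CQ

/-- Let `p` be an odd prime and let `P` be a class of finitely generated rings of characteristic
`p` with the formal properties `FormalClass p P`. Then `P` contains `k[x, y, w] / (w ^ n - f(x, y))`
for every finite field `k` of characteristic `p`, every `n ≥ 1` and every polynomial `f` of total
degree at most `4`. -/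
theorem result (p : ℕ) (hp : p.Prime) (hp2 : p ≠ 2) (P : ∀ (A : Type) [CommRing A], Prop)
    (hP : FormalClass p P) (k : Type) [Field k] [Finite k] [CharP k p]
    (f : MvPolynomial (Fin 2) k) (hf : f.totalDegree ≤ 4) (n : ℕ) (hn : 0 < n) :
    P (AdjoinRoot (X ^ n - C f : Polynomial (MvPolynomial (Fin 2) k))) :=
  cyclic_quartics hp hp2 hP k f hf n hn

end Pool.Agent.Results.MP_e93a6a_ag.CyclicQuartics
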