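import Pool.Agent.Helper65.Mor.SchemeMain

/-!
# Finite generation in negative weights: reduction to open subschemes of `Gr(3, m)`
-/

namespace Pool.Agent.Results.MP_e93a6a_ag.GrassmannOpens

open AlgebraicGeometry Pool.Agent.Helper65.Mor

/-- Let `P n X` be a statement about negative integers `n` and arithmetic schemes `X` which has the
formal properties `FormalProperties` of the statement that all groups `H^i(X_et, ℤ^c(n))` are
finitely generated. Then `P n X` holds for all `n < 0` and all arithmetic schemes `X` if and only
if `P (-1) U` holds for all open subschemes `U` of the standard chart of the Grassmannian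
`Gr(3, 3 + m)` over `ℤ` which are given by the nonvanishing of a set `S` of Pluecker
coordinates. -/
theorem result (P : ℤ → Scheme.{0} → Prop) (hP : FormalProperties P) :
    (∀ n < 0, ∀ X : Scheme.{0}, Arithmetic X → P n X) ↔
      ∀ (m : ℕ) (S : Finset (Fin 3 ↪ Fin 3 ⊕ Fin m)),
        P (-1) (Spec (CommRingCat.of (Localization.Away (∏ I ∈ S, plucker I)))) := by
  constructor
  · intro h m S
    apply h (-1) (by norm_num)
    apply arithmetic_of_fgen
    apply FGen.away
    have h2 : Int.castRingHom (Chart (Fin m)) = algebraMap ℤ (Chart (Fin m)) :=
      RingHom.ext_int _ _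
    rw [FGen, h2]
    exact RingHom.finiteType_algebraMap.2 inferInstance
  · intro h n hn X hX
    obtain ⟨k, rfl⟩ : ∃ k : ℕ, n = -1 - k := ⟨(-1 - n).toNat, by omega⟩
    exact scheme_main hP hn (affine_main hP h k) X hX

end Pool.Agent.Results.MP_e93a6a_ag.GrassmannOpens
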