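import Pool.Agent.Helper71.QP.Sums

/-!
# Isogeny covers of the plane branched along a quartic curve and a double conic
-/

set_option autoImplicit false

namespace Pool.Agent.Results.MP_e93a6a_ag.QuarticPencils

open Polynomial Pool.Agent.Helper71.PN

/-- Let `k` be a finite field of characteristic `p > 2`, let `f` and `g` be polynomials in two
variables over `k` of degrees at most `4` and `2`, and let `Φ = h_1(z_1) + ... + h_m(z_m)` be a sum
of polynomials in one variable such that all `h_j` are monomials `c_j z ^ n_j` with `n_j > 0`, or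
some `h_j` is not zero and additive (all its exponents are powers of `p`). Let `P` be an isogeny
class. Then `P` contains the ring `k[x, y, z_1, ..., z_m] / (g(x, y) ^ 2 Φ - f(x, y))`. -/
theorem result (p : ℕ) (hp : p.Prime) (hp2 : p ≠ 2) (P : ∀ (A : Type) [CommRing A], Prop)
    (hP : IsogenyClass p P) (k : Type) [Field k] [Finite k] [CharP k p]
    (f g : MvPolynomial (Fin 2) k) (hf : f.totalDegree ≤ 4) (hg : g.totalDegree ≤ 2) (m : ℕ)
    (h : Fin m → k[X])
    (hh : (∀ j, ∃ (c : k) (n : ℕ), 0 < n ∧ h j = C c * X ^ n) ∨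
      ∃ j, h j ≠ 0 ∧ ∀ e ∈ (h j).support, ∃ i, e = p ^ i) :
    P (MvPolynomial (Fin m) (MvPolynomial (Fin 2) k) ⧸ Ideal.span {MvPolynomial.C (g ^ 2) *
      MvPolynomial.map MvPolynomial.C (∑ j, aeval (MvPolynomial.X j) (h j)) -
        MvPolynomial.C f}) :=
  Pool.Agent.Helper71.QP.quartic_sums hp hp2 hP f g hf hg m h hh

end Pool.Agent.Results.MP_e93a6a_ag.QuarticPencils
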