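import Pool.Agent.Helper71.WP.Cone
import Pool.Agent.Helper71.WP.Bridge

/-!
# Isogeny covers of weighted planes
-/

set_option autoImplicit false

namespace Pool.Agent.Results.MP_e93a6a_ag.WeightedPencils

open Polynomial Pool.Agent.Helper71.IC

/-- All `h_j` are monomials `c_j z ^ n_j` with `n_j > 0`, or some `h_j` is additive and not zero. -/
def Sums (p : ℕ) {k : Type} [Field k] {m : ℕ} (h : Fin m → k[X]) : Prop :=
  (∀ j, ∃ (c : k) (n : ℕ), 0 < n ∧ h j = C c * X ^ n) ∨ ∃ j, h j ≠ 0 ∧ Additive p (h j)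

/-- Let `k` be a finite field of characteristic `p > 2`, let `s, t ≥ 0` be integers, not both zero,
and let `f` and `g` be polynomials in `x, y` over `k` of degrees at most `2 (s + t)` and `s + t` if
`x` and `y` have the degrees `s` and `t`. Let `Φ = h_1(z_1) + ... + h_m(z_m)` be a sum of
polynomials in one variable such that all `h_j` are monomials `c_j z ^ n_j` with `n_j > 0`, or some
`h_j` is not zero and additive (all its exponents are powers of `p`). Let `P` be an isogeny class.
Then `P` contains the ring `k[x, y, z_1, ..., z_m] / (g(x, y) ^ 2 Φ - f(x, y))`. -/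
theorem result (p : ℕ) (hp : p.Prime) (hp2 : p ≠ 2) (P : ∀ (A : Type) [CommRing A], Prop)
    (hP : IsogenyClass p P) (k : Type) [Field k] [Finite k] [CharP k p] (s t : ℕ)
    (hst : 0 < s + t) (f g : MvPolynomial (Fin 2) k)
    (hf : ∀ e ∈ f.support, s * e 0 + t * e 1 ≤ 2 * (s + t))
    (hg : ∀ e ∈ g.support, s * e 0 + t * e 1 ≤ s + t) (m : ℕ) (h : Fin m → k[X])
    (hh : Sums p h) :
    P (MvPolynomial (Fin m) (MvPolynomial (Fin 2) k) ⧸ Ideal.span {MvPolynomial.C (g ^ 2) *
      MvPolynomial.map MvPolynomial.C (∑ j, aeval (MvPolynomial.X j) (h j)) -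
        MvPolynomial.C f}) :=
  Pool.Agent.Helper71.WP.sums hp hp2 hP.old hst f g hf hg m h hh

end Pool.Agent.Results.MP_e93a6a_ag.WeightedPencils
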